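import Pool.Agent.MWGX.StmtsB
import Pool.Agent.Helper19_MWGQ.KPR

/-!
MWGX, row MIP: `P0` makes the pair adjacent.
-/

set_option autoImplicit false

namespace Pool.Agent.MWGX.H23

open Pool.Agent.Helper14_MV Pool.Agent.Helper2_MV
open Pool.Agent.MWGQ (pw kr)

/-- **MIP**. -/
theorem mip (h : Pool.Agent.MWGQ.PwxStmt) : MipStmt := by
  intro n β hg hp m τ hτ U V A B S L C
  have e : Pool.Agent.MWGQ.kr n U V A B S L C τ m = A ++ (U ++ Pool.Agent.MWGQ.H19.Rr n L C (L m ++ (V ++ (B ++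
      τ.flatMap (fun i => S i ++ L i)))) 0 m) := by
    unfold Pool.Agent.MWGQ.kr
    rw [Pool.Agent.MWGQ.H19.bd_eq]
  rw [e]
  have h0 := Pool.Agent.MWGQ.H19.claim h hg hp V B S L C τ m hτ m 0 (by omega)
  generalize Pool.Agent.MWGQ.H19.Rr n L C (L m ++ (V ++ (B ++
    τ.flatMap (fun i => S i ++ L i)))) 0 m = R at *
  have hY : pw n V = V ++ pw (n - 1) V := by
    obtain ⟨n', rfl⟩ := Nat.exists_eq_add_of_le' hg.pos
    rw [Pool.Agent.MWGQ.H19.pw_succ, Nat.add_sub_cancel]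
  refine ⟨A, pw (n - 1) V ++ R, fun Q1 Q2 => ?_⟩
  have h1 := h0 Q1 (Q2 ++ (A ++ U))
  rw [hY] at h1
  simpa only [List.append_assoc] using h1

end Pool.Agent.MWGX.H23
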