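import Pool.Agent.MWGX.StmtsA

/-!
MWGX, row SPL: literal form of the first block.
-/

set_option autoImplicit false

namespace Pool.Agent.MWGX.H23

open Pool.Agent.Helper14_MV Pool.Agent.Helper2_MV
open Pool.Agent.MWK (pre)
open Pool.Agent.MWGN (nn)
open Pool.Agent.MWGR (X)

theorem flt (P : ℕ → Bool) (h0 : P 0 = true) :
    ∀ l : List ℕ, (∀ d ∈ l, P d = true → d = 0) → l.filter P = X (l.count 0)
  | [], _ => rfl
  | d :: l, h => by
    have ih := flt P h0 l (fun e he => h e (List.mem_cons_of_mem _ he))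
    by_cases hd : P d = true
    · have hd0 := h d List.mem_cons_self hd
      subst hd0
      rw [List.filter_cons_of_pos hd, ih, List.count_cons_self]
      rfl
    · have hd0 : d ≠ 0 := fun e => hd (e ▸ h0)
      rw [List.filter_cons_of_neg hd, ih, List.count_cons_of_ne hd0]

theorem core (w : List ℕ) (a b : ℕ) (ha0 : a ≠ 0) (hb0 : b ≠ 0) (ha3 : a ≠ 3) (hb3 : b ≠ 3)
    (hab : a ≠ b) (h3 : w.count 3 = 1) (h03 : nn w 0 3 = w.count 0) (h1 : nn w a 3 = 1)
    (h2 : nn w b 3 = 1) (hin : a ∈ pre w b) (P : ℕ → Bool) (p0 : P 0 = true) (pa : P a = true)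
    (pb : P b = true) (p3 : P 3 = true)
    (ho : ∀ d, P d = true → d ≠ 0 → d ≠ a → d ≠ b → nn w d 3 = 0) :
    ∃ (i j k : ℕ) (B : List ℕ), w = pre w 3 ++ 3 :: B ∧ 0 ∉ B ∧ 3 ∉ B ∧ i = nn w 0 a ∧
      i + j = nn w 0 b ∧
      w.filter P = X i ++ a :: (X j ++ b :: (X k ++ 3 :: B.filter P)) := by
  have h3m : 3 ∈ w := List.count_pos_iff.1 (by omega)
  obtain ⟨B, hB⟩ := Pool.Agent.MWK.mem_split h3m
  unfold nn at h03 h1 h2
  have hbm : b ∈ pre w 3 := List.count_pos_iff.1 (by omega)
  obtain ⟨C2, hC2⟩ := Pool.Agent.MWK.pre_mono hbm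
  obtain ⟨C1, hC1⟩ := Pool.Agent.MWK.pre_mono hin
  have np3 : (pre w 3).count 3 = 0 := List.count_eq_zero.2 (Pool.Agent.MWK.not_mem_pre w 3)
  have npa : a ∉ pre w a := Pool.Agent.MWK.not_mem_pre w a
  have npb : (pre w b).count b = 0 := List.count_eq_zero.2 (Pool.Agent.MWK.not_mem_pre w b)
  have e1 := congrArg (List.count 3) hB
  have e2 := congrArg (List.count 0) hB
  have e3 := congrArg (List.count b) hC2
  have e4 := congrArg (List.count a) hC2
  have e5 := congrArg (List.count a) hC1
  have e6 := congrArg (List.count b) hC1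
  have e7 := congrArg (List.count 0) hC1
  simp only [List.count_append, List.count_cons_self,
    List.count_cons_of_ne (show (3 : ℕ) ≠ 0 by omega), List.count_cons_of_ne hab,
    List.count_cons_of_ne hab.symm, List.count_cons_of_ne ha0] at e1 e2 e3 e4 e5 e6 e7
  have hB0 : 0 ∉ B := List.count_eq_zero.1 (by omega)
  have hB3 : 3 ∉ B := List.count_eq_zero.1 (by omega)
  have bC2 : b ∉ C2 := List.count_eq_zero.1 (by omega)
  have aC2 : a ∉ C2 := List.count_eq_zero.1 (by omega)
  have aC1 : a ∉ C1 := List.count_eq_zero.1 (by omega)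
  have bC1 : b ∉ C1 := List.count_eq_zero.1 (by omega)
  have bp : b ∉ pre w a := List.count_eq_zero.1 (by omega)
  have hw3 : pre w 3 = pre w a ++ a :: (C1 ++ b :: C2) := by
    rw [hC2, hC1, List.append_assoc, List.cons_append]
  have hout : ∀ d ∈ pre w 3, P d = true → d = 0 ∨ d = a ∨ d = b := by
    intro d hd hPd
    by_contra hcon
    push Not at hcon
    have := ho d hPd hcon.1 hcon.2.1 hcon.2.2
    unfold nn at this
    exact List.count_eq_zero.1 this hd
  have f1 : (pre w a).filter P = X ((pre w a).count 0) := by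
    apply flt P p0
    intro d hd hPd
    rcases hout d (by rw [hw3]; exact List.mem_append_left _ hd) hPd with h | h | h
    · exact h
    · exact absurd (h ▸ hd) npa
    · exact absurd (h ▸ hd) bp
  have f2 : C1.filter P = X (C1.count 0) := by
    apply flt P p0
    intro d hd hPd
    rcases hout d (by
      rw [hw3]
      exact List.mem_append_right _ (List.mem_cons_of_mem _ (List.mem_append_left _ hd))) hPd
      with h | h | h
    · exact h
    · exact absurd (h ▸ hd) aC1
    · exact absurd (h ▸ hd) bC1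
  have f3 : C2.filter P = X (C2.count 0) := by
    apply flt P p0
    intro d hd hPd
    rcases hout d (by
      rw [hw3]
      exact List.mem_append_right _ (List.mem_cons_of_mem _ (List.mem_append_right _
        (List.mem_cons_of_mem _ hd)))) hPd with h | h | h
    · exact h
    · exact absurd (h ▸ hd) aC2
    · exact absurd (h ▸ hd) bC2
  refine ⟨(pre w a).count 0, C1.count 0, C2.count 0, B, hB, hB0, hB3, rfl, ?_, ?_⟩
  · unfold nn
    omega
  · have e8 : w.filter P = ((pre w a ++ a :: (C1 ++ b :: C2)) ++ 3 :: B).filter P := by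
      rw [← hw3, ← hB]
    rw [e8, List.filter_append, List.filter_append, List.filter_cons_of_pos pa,
      List.filter_append, List.filter_cons_of_pos pb, List.filter_cons_of_pos p3, f1, f2, f3]
    simp only [List.append_assoc, List.cons_append]

/-- **SPL**. -/
theorem spl : SplStmt := by
  intro w h3 h03 h1 h2 P p0 p1 p2 p3 ho
  by_cases h12 : nn w 1 2 = 1
  · have hin : 1 ∈ pre w 2 := by
      unfold nn at h12
      exact List.count_pos_iff.1 (by omega)
    obtain ⟨i, j, k, B, a1, a2, a3, a4, a5, a6⟩ := core w 1 2 (by omega) (by omega) (by omega)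
      (by omega) (by omega) h3 h03 h1 h2 hin P p0 p1 p2 p3 ho
    exact ⟨i, j, k, B, a1, a2, a3, fun _ => ⟨a4, a5, a6⟩, fun h => absurd h12 h⟩
  · have hm1 : 1 ∈ pre w 3 := by
      unfold nn at h1
      exact List.count_pos_iff.1 (by omega)
    have hm2 : 2 ∈ pre w 3 := by
      unfold nn at h2
      exact List.count_pos_iff.1 (by omega)
    have hle := Pool.Agent.MWK.count_pre_mono hm2 1
    have hin : 2 ∈ pre w 1 := by
      rcases Pool.Agent.MWK.pre_total (Pool.Agent.MWK.mem_of_mem_pre hm1)
        (show (1 : ℕ) ≠ 2 by omega) with h | h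
      · exfalso
        have h4 : 0 < (pre w 2).count 1 := List.count_pos_iff.2 h
        unfold nn at h12 h1
        omega
      · exact h
    obtain ⟨i, j, k, B, a1, a2, a3, a4, a5, a6⟩ := core w 2 1 (by omega) (by omega) (by omega)
      (by omega) (by omega) h3 h03 h2 h1 hin P p0 p2 p1 p3
      (fun d hd d0 d2 d1 => ho d hd d0 d1 d2)
    exact ⟨i, j, k, B, a1, a2, a3, fun h => absurd h h12, fun _ => ⟨a4, a5, a6⟩⟩

end Pool.Agent.MWGX.H23
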